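import Pool.Agent.Y34.HB.Stm2
import Pool.Agent.TH60.FP.Dist
import Pool.Agent.TH60.FP.Trans
import Pool.Agent.TH60.FP.Mid
import Pool.Agent.TH60.FP.Strip
import Pool.Agent.Y155.HB.Slab

set_option autoImplicit false

/-!
# Project HP, job INV (helper901): two axes of an isometry bound a flat strip
-/

universe u v w

open Metric Set Filter Topology
open Pool.Agent.TH60.FP Pool.Agent.Y34.HB Pool.Agent.Y155.HB

namespace Pool.Agent.Y901.HB

section

variable {X : Type u} [MetricSpace X]

/-- The point dividing a segment in a given ratio is unique. -/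
theorem Dv_unique {p q : X} {l : ℝ} {m m' : X} (h : Dv p q l m) (h' : Dv p q l m') (h0 : 0 ≤ l)
    (h1 : l ≤ 1) : m = m' := by
  have e1 := h m'
  have e2 : dist m' p ^ 2 ≤ (l * dist p q) ^ 2 := by
    rw [dist_comm m' p]
    exact pow_le_pow_left₀ dist_nonneg (h'.left h0) 2
  have e3 : dist m' q ^ 2 ≤ ((1 - l) * dist p q) ^ 2 :=
    pow_le_pow_left₀ dist_nonneg (h'.right h1) 2
  have e4 : (1 - l) * dist m' p ^ 2 ≤ (1 - l) * (l * dist p q) ^ 2 :=
    mul_le_mul_of_nonneg_left e2 (by linarith)
  have e5 : l * dist m' q ^ 2 ≤ l * ((1 - l) * dist p q) ^ 2 :=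
    mul_le_mul_of_nonneg_left e3 h0
  have e6 : (1 - l) * (l * dist p q) ^ 2 + l * ((1 - l) * dist p q) ^ 2 -
      l * (1 - l) * dist p q ^ 2 = 0 := by ring
  have e7 : dist m' m ^ 2 ≤ 0 := by linarith
  have e8 : dist m' m = 0 := by
    have := sq_nonneg (dist m' m)
    exact pow_eq_zero_iff (two_ne_zero) |>.1 (le_antisymm e7 this)
  exact (dist_eq_zero.1 e8).symm

/-- The slab between two parallel flats. -/
theorem slab {V : Type w} [NormedAddCommGroup V] [NormedSpace ℝ V] {f h : V → X}
    (hf : Isometry f) (hh : Isometry h) {d : ℝ} (hd : 0 < d)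
    (hdd : ∀ z w, dist (f z) (h w) ^ 2 = d ^ 2 + dist z w ^ 2) {P : V → ℝ → X}
    (hP : ∀ z s, Dv (f z) (h z) (max 0 (min 1 (s / d))) (P z s)) :
    ∀ z w s t, 0 ≤ s → s ≤ d → 0 ≤ t → t ≤ d →
      dist (P z s) (P w t) ^ 2 = dist z w ^ 2 + (s - t) ^ 2 := by
  have hff : ∀ z w, dist (f z) (f w) = dist z w := fun z w => hf.dist_eq z w
  have hhh : ∀ z w, dist (h z) (h w) = dist z w := fun z w => hh.dist_eq z w
  -- the inequality without clamping
  have key : ∀ (z : V) (s : ℝ), 0 ≤ s → s ≤ d → ∀ x : X, dist x (P z s) ^ 2 ≤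
      (1 - s / d) * dist x (f z) ^ 2 + s / d * dist x (h z) ^ 2 - s * (d - s) := by
    intro z s h0 h1 x
    have h2 := hP z s x
    have h3 : max 0 (min 1 (s / d)) = s / d := by
      rw [min_eq_right ((div_le_one hd).2 h1), max_eq_right (by positivity)]
    rw [h3, hdd z z, dist_self] at h2
    have h4 : s / d * (1 - s / d) * (d ^ 2 + 0 ^ 2) = s * (d - s) := by
      field_simp
      ring
    rw [h4] at h2
    exact h2
  have u1 : ∀ z w t, 0 ≤ t → t ≤ d → dist (f z) (P w t) ^ 2 ≤ dist z w ^ 2 + t ^ 2 := by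
    intro z w t h0 h1
    refine (key w t h0 h1 (f z)).trans (le_of_eq ?_)
    rw [hff, hdd]
    field_simp
    ring
  have u2 : ∀ z w t, 0 ≤ t → t ≤ d →
      dist (h z) (P w t) ^ 2 ≤ dist z w ^ 2 + (d - t) ^ 2 := by
    intro z w t h0 h1
    refine (key w t h0 h1 (h z)).trans (le_of_eq ?_)
    rw [dist_comm (h z) (f w), hdd, hhh, dist_comm w z]
    field_simp
    ring
  have u3 : ∀ z w s t, 0 ≤ s → s ≤ d → 0 ≤ t → t ≤ d →
      dist (P z s) (P w t) ^ 2 ≤ dist z w ^ 2 + (s - t) ^ 2 := by
    intro z w s t h0 h1 h2 h3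
    rw [dist_comm (P z s)]
    have k1 := key z s h0 h1 (P w t)
    have k2 := u1 z w t h2 h3
    have k3 := u2 z w t h2 h3
    rw [dist_comm] at k2 k3
    have k4 : 0 ≤ s / d := by positivity
    have k5 : 0 ≤ 1 - s / d := by
      rw [sub_nonneg]
      exact (div_le_one hd).2 h1
    calc dist (P w t) (P z s) ^ 2 ≤ _ := k1
      _ ≤ (1 - s / d) * (dist z w ^ 2 + t ^ 2) + s / d * (dist z w ^ 2 + (d - t) ^ 2) -
          s * (d - s) := by gcongr
      _ = dist z w ^ 2 + (s - t) ^ 2 := by
        field_simp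
        ring
  -- lower bound
  have l1 : ∀ z w s t, 0 ≤ s → t ≤ d → s < t →
      dist z w ^ 2 + (s - t) ^ 2 ≤ dist (P z s) (P w t) ^ 2 := by
    intro z w s t h0 h1 hst
    have hts : 0 < t - s := by linarith
    set L : ℝ := √(dist z w ^ 2 + (s - t) ^ 2) with hL
    have hL0 : 0 ≤ L := Real.sqrt_nonneg _
    have hL2 : L ^ 2 = dist z w ^ 2 + (s - t) ^ 2 := Real.sq_sqrt (by positivity)
    set z0 : V := z - (s / (t - s)) • (w - z) with hz0
    set w0 : V := w + ((d - t) / (t - s)) • (w - z) with hw0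
    have d1 : dist z0 w0 = d / (t - s) * dist z w := by
      have : z0 - w0 = -((d / (t - s)) • (w - z)) := by
        rw [hz0, hw0]
        have : d / (t - s) = s / (t - s) + 1 + (d - t) / (t - s) := by
          field_simp
          ring
        rw [this]
        module
      rw [dist_eq_norm, this, norm_neg, norm_smul, Real.norm_eq_abs,
        abs_of_nonneg (by positivity), dist_comm z w, dist_eq_norm w z]
    have d2 : dist z0 z = s / (t - s) * dist z w := by
      have : z0 - z = -((s / (t - s)) • (w - z)) := by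
        rw [hz0]
        module
      rw [dist_eq_norm, this, norm_neg, norm_smul, Real.norm_eq_abs,
        abs_of_nonneg (by positivity), dist_comm z w, dist_eq_norm w z]
    have d3 : dist w0 w = (d - t) / (t - s) * dist z w := by
      have : w0 - w = ((d - t) / (t - s)) • (w - z) := by
        rw [hw0]
        module
      rw [dist_eq_norm, this, norm_smul, Real.norm_eq_abs,
        abs_of_nonneg (div_nonneg (by linarith) hts.le), dist_comm z w, dist_eq_norm w z]
    have e1 : dist (f z0) (h w0) = d / (t - s) * L := by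
      refine (pow_left_inj₀ dist_nonneg (by positivity) two_ne_zero).1 ?_
      rw [hdd, d1, mul_pow, mul_pow, hL2]
      field_simp
      ring
    have e2 : dist (f z0) (P z s) ≤ s / (t - s) * L := by
      refine (pow_le_pow_iff_left₀ dist_nonneg (by positivity) two_ne_zero).1 ?_
      refine (u1 z0 z s h0 (by linarith)).trans (le_of_eq ?_)
      rw [d2, mul_pow, mul_pow, hL2]
      field_simp
      ring
    have e3 : dist (h w0) (P w t) ≤ (d - t) / (t - s) * L := by
      refine (pow_le_pow_iff_left₀ dist_nonneg (mul_nonneg (div_nonneg (by linarith) hts.le) hL0)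
        two_ne_zero).1 ?_
      refine (u2 w0 w t (by linarith) h1).trans (le_of_eq ?_)
      rw [d3, mul_pow, mul_pow, hL2]
      field_simp
      ring
    have e4 : L ≤ dist (P z s) (P w t) := by
      have h5 := dist_triangle4 (f z0) (P z s) (P w t) (h w0)
      rw [e1, dist_comm (P w t)] at h5
      have h6 : d / (t - s) * L = s / (t - s) * L + L + (d - t) / (t - s) * L := by
        field_simp
        ring
      linarith
    rw [← hL2]
    exact pow_le_pow_left₀ hL0 e4 2
  have l2 : ∀ z w s t, 0 ≤ s → s ≤ d → 0 ≤ t → t ≤ d → s ≠ t →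
      dist z w ^ 2 + (s - t) ^ 2 ≤ dist (P z s) (P w t) ^ 2 := by
    intro z w s t h0 h1 h2 h3 hne
    rcases lt_or_gt_of_ne hne with h4 | h4
    · exact l1 z w s t h0 h3 h4
    · have := l1 w z t s h2 h1 h4
      rw [dist_comm z w, dist_comm (P z s)]
      nlinarith
  have l3 : ∀ z w s, 0 ≤ s → s ≤ d → dist z w ≤ dist (P z s) (P w s) := by
    intro z w s h0 h1
    refine le_of_forall_pos_le_add fun ε hε => ?_
    obtain ⟨t, ht0, ht1, hts, htε⟩ : ∃ t : ℝ, 0 ≤ t ∧ t ≤ d ∧ s ≠ t ∧ |t - s| ≤ ε := by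
      rcases lt_or_eq_of_le h1 with h2 | h2
      · refine ⟨min d (s + ε), le_min hd.le (by linarith), min_le_left _ _, ?_, ?_⟩
        · exact (lt_min h2 (by linarith)).ne
        · rw [abs_of_nonneg (by rw [sub_nonneg]; exact le_min h1 (by linarith))]
          have := min_le_right d (s + ε)
          linarith
      · refine ⟨max 0 (s - ε), le_max_left _ _, max_le hd.le (by linarith), ?_, ?_⟩
        · refine (max_lt ?_ (by linarith)).ne'
          rw [h2]; exact hd
        · rw [abs_of_nonpos (by rw [sub_nonpos]; exact max_le h0 (by linarith))]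
          have := le_max_right 0 (s - ε)
          linarith
    have k1 : dist z w ≤ dist (P z s) (P w t) := by
      refine (pow_le_pow_iff_left₀ dist_nonneg dist_nonneg two_ne_zero).1 ?_
      have := l2 z w s t h0 h1 ht0 ht1 hts
      nlinarith [sq_nonneg (s - t)]
    have k2 : dist (P w t) (P w s) ≤ ε := by
      refine le_trans ?_ htε
      refine (pow_le_pow_iff_left₀ dist_nonneg (abs_nonneg _) two_ne_zero).1 ?_
      have := u3 w w t s ht0 ht1 h0 h1
      rw [dist_self] at this
      rw [sq_abs]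
      linarith
    have k3 := dist_triangle (P z s) (P w s) (P w t)
    rw [dist_comm (P w s)] at k3
    linarith
  refine fun z w s t h0 h1 h2 h3 => le_antisymm (u3 z w s t h0 h1 h2 h3) ?_
  by_cases hst : s = t
  · subst hst
    rw [sub_self]
    have := pow_le_pow_left₀ dist_nonneg (l3 z w s h0 h1) 2
    linarith
  · exact l2 z w s t h0 h1 h2 h3 hst

variable {G : Type v} [Group G] [MulAction G X]

/-- Two axes of an isometry are parallel. -/
theorem par_axes [IsIsometricSMul G X] {g : G} {τ : ℝ} (hτ : 0 < τ) {c c' : ℝ → X}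
    (hc : Axis g τ c) (hc' : Axis g τ c') : Par c c' := by
  have hcont : Continuous fun t => dist (c t) (c' t) :=
    hc.1.continuous.dist hc'.1.continuous
  have hper : Function.Periodic (fun t => dist (c t) (c' t)) τ := by
    intro t
    simp only
    rw [← hc.2 t, ← hc'.2 t, dist_smul]
  obtain ⟨B, hB⟩ := (isCompact_Icc (a := (0 : ℝ)) (b := τ)).exists_bound_of_continuousOn
    hcont.continuousOn
  refine ⟨B, fun t => ?_⟩
  obtain ⟨y, hy, hty⟩ := hper.exists_mem_Ico₀ hτ t
  have h1 := hB y ⟨hy.1, hy.2.le⟩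
  rw [Real.norm_eq_abs, abs_of_nonneg dist_nonneg] at h1
  have h2 : dist (c t) (c' t) = dist (c y) (c' y) := hty
  rw [h2]
  exact h1

/-- The isometry maps dividing points to dividing points. -/
theorem Dv_smul [IsIsometricSMul G X] (g : G) {p q : X} {l : ℝ} {m : X} (h : Dv p q l m) :
    Dv (g • p) (g • q) l (g • m) := by
  intro x
  have h1 := h (g⁻¹ • x)
  have e : ∀ y : X, dist (g⁻¹ • x) y = dist x (g • y) := by
    intro y
    rw [← dist_smul g (g⁻¹ • x) y, smul_inv_smul]
  rw [e, e, e] at h1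
  rw [dist_smul]
  exact h1

end

/-- Two axes of `g` bound a flat strip and `g` is a translation of this strip. -/
theorem t : S_INV.{u, v} := by
  intro X _ G _ _ hG g τ hτ c c' hc hc'
  haveI := hG.isom
  haveI := hG.proper
  have hdd := t_dd t_strip.{u} (t_trans t_strip) (t_mid t_strip)
  obtain ⟨hd0, o, ho⟩ := (hdd X hG.cn).1 c c' hc.1 hc'.1 (par_axes hτ hc hc')
  obtain ⟨d, hd⟩ : ∃ d, d = DD c c' := ⟨_, rfl⟩
  rw [← hd] at hd0 ho ⊢
  have ho2 : ∀ s t : ℝ, dist (c s) (c' (t + o)) ^ 2 = d ^ 2 + (t - s) ^ 2 := by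
    intro s t
    rw [ho s (t + o)]
    ring
  rcases eq_or_lt_of_le hd0 with hd1 | hd1
  · -- width zero
    have hcc : ∀ t, c t = c' (t + o) := by
      intro t
      have h1 := ho2 t t
      rw [← hd1, sub_self] at h1
      have h2 : dist (c t) (c' (t + o)) ^ 2 = 0 := by rw [h1]; ring
      exact dist_eq_zero.1 (pow_eq_zero_iff (two_ne_zero) |>.1 h2)
    refine ⟨fun t _ => c t, o, ?_, fun t => rfl, hcc, fun t s _ _ => hc.2 t, ?_⟩
    · intro t s t' s' h1 h2 h3 h4
      have e1 : s = 0 := by rw [← hd1] at h2; linarith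
      have e2 : s' = 0 := by rw [← hd1] at h4; linarith
      rw [e1, e2, hc.1.dist_eq, Real.dist_eq, sq_abs]
      ring
    · intro t x
      simp only
      rw [← hcc t, ← hd1]
      apply le_of_eq
      ring
  · -- positive width
    have hcl : ∀ s : ℝ, 0 ≤ max 0 (min 1 (s / d)) ∧ max 0 (min 1 (s / d)) ≤ 1 := fun s =>
      ⟨le_max_left _ _, max_le zero_le_one (min_le_left _ _)⟩
    choose P hP using fun (z : ℝ) (s : ℝ) =>
      dv_exists hG.cn (c z) (c' (z + o)) (max 0 (min 1 (s / d))) (hcl s).1 (hcl s).2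
    have hh : Isometry (fun t => c' (t + o)) := by
      refine Isometry.of_dist_eq fun s t => ?_
      rw [hc'.1.dist_eq, Real.dist_eq, Real.dist_eq]
      congr 1
      ring
    have hS := slab hc.1 hh hd1 (fun z w => by
      rw [ho2 z w, Real.dist_eq, sq_abs]
      ring) hP
    refine ⟨P, o, ?_, ?_, ?_, ?_, ?_⟩
    · intro t s t' s' h1 h2 h3 h4
      rw [hS t t' s s' h1 h2 h3 h4, Real.dist_eq, sq_abs]
    · intro t
      have h1 := (hP t 0).left (hcl 0).1
      have h2 : max 0 (min 1 ((0 : ℝ) / d)) = 0 := by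
        rw [zero_div, min_eq_right zero_le_one, max_self]
      rw [h2, zero_mul] at h1
      exact (dist_eq_zero.1 (le_antisymm h1 dist_nonneg)).symm
    · intro t
      have h1 := (hP t d).right (hcl d).2
      have h2 : max 0 (min 1 (d / d)) = 1 := by
        rw [div_self hd1.ne', min_self, max_eq_right zero_le_one]
      rw [h2, sub_self, zero_mul] at h1
      exact dist_eq_zero.1 (le_antisymm h1 dist_nonneg)
    · intro t s _ _
      have h1 := Dv_smul g (hP t s)
      rw [hc.2, hc'.2, show t + o + τ = t + τ + o by ring] at h1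
      exact Dv_unique h1 (hP (t + τ) s) (hcl s).1 (hcl s).2
    · intro t x
      have h1 := hP t (d / 2) x
      have h2 : max 0 (min 1 (d / 2 / d)) = 1 / 2 := by
        have : d / 2 / d = 1 / 2 := by field_simp
        rw [this, min_eq_right (by norm_num), max_eq_right (by norm_num)]
      rw [h2, ho2 t t, sub_self] at h1
      refine h1.trans (le_of_eq ?_)
      ring

end Pool.Agent.Y901.HB
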